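import Mathlib
import Pool.Agent.Lib.MP_10145b_nt.Core

namespace Pool.Agent.Results.MP_10145b_nt.FullAnswer

open scoped ENNReal

/-- The quantity `D(a, h, w) ∈ [0, ∞]`: the supremum over `d ≥ 1`, `n ≥ 1` of
`|∑_{k=1}^n w(k) a_1(d(k+h_1)) ⋯ a_ℓ(d(k+h_ℓ))|`. -/
noncomputable def D {ℓ : ℕ} (a : Fin ℓ → ℕ → ℂ) (h : Fin ℓ → ℕ) (w : ℕ → ℂ) : ℝ≥0∞ :=
  ⨆ (d : ℕ) (_ : 1 ≤ d) (n : ℕ) (_ : 1 ≤ n),
    ENNReal.ofReal ‖∑ k ∈ Finset.Icc 1 n, w k * ∏ j, a j (d * (k + h j))‖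

/-! ### Weight (i): `w = 1` -/

/-- The completely multiplicative function with `f 2 = 1` and `f u = χ₄ u` for odd `u`. -/
noncomputable def pf (n : ℕ) : ℤ := ZMod.χ₄ ((ordCompl[2] n : ℕ) : ZMod 4)

lemma pf_mul (m n : ℕ) : pf (m * n) = pf m * pf n := by
  unfold pf
  rw [Nat.ordCompl_mul]
  push_cast
  rw [map_mul]

lemma pf_odd {n : ℕ} (hn : n % 2 = 1) : pf n = ZMod.χ₄ (n : ZMod 4) := by
  unfold pf
  have : ¬ 2 ∣ n := by omega
  rw [Nat.factorization_eq_zero_of_not_dvd this]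
  simp

lemma pf_pm {n : ℕ} (hn : 1 ≤ n) : pf n = 1 ∨ pf n = -1 := by
  unfold pf
  have h1 : ¬ 2 ∣ ordCompl[2] n := Nat.not_dvd_ordCompl Nat.prime_two (by omega)
  have h2 : ordCompl[2] n % 2 = 1 := by omega
  rcases Nat.odd_mod_four_iff.mp h2 with h | h
  · left; exact ZMod.χ₄_nat_one_mod_four h
  · right; exact ZMod.χ₄_nat_three_mod_four h

lemma pf_even_nbrs (m : ℕ) : pf (2 * m + 1) + pf (2 * m + 3) = 0 := by
  rw [pf_odd (by omega), pf_odd (by omega)]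
  rcases Nat.even_or_odd' m with ⟨c, hc | hc⟩
  · have h1 : (2 * m + 1) % 4 = 1 := by omega
    have h2 : (2 * m + 3) % 4 = 3 := by omega
    rw [ZMod.χ₄_nat_one_mod_four h1, ZMod.χ₄_nat_three_mod_four h2]; norm_num
  · have h1 : (2 * m + 1) % 4 = 3 := by omega
    have h2 : (2 * m + 3) % 4 = 1 := by omega
    rw [ZMod.χ₄_nat_one_mod_four h2, ZMod.χ₄_nat_three_mod_four h1]; norm_num

lemma sum_odd (m : ℕ) :
    ∑ k ∈ Finset.Icc 1 (2 * m + 1), pf (k + 1) * pf (k + 2) = pf 2 * pf 3 := by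
  induction m with
  | zero => simp
  | succ m ih =>
    rw [show 2 * (m + 1) + 1 = (2 * m + 1) + 1 + 1 by ring,
      Finset.sum_Icc_succ_top (by omega), Finset.sum_Icc_succ_top (by omega), ih]
    have h := pf_even_nbrs (m + 1)
    rw [show 2 * m + 1 + 1 + 1 = 2 * (m + 1) + 1 by ring,
      show 2 * m + 1 + 1 + 2 = 2 * m + 1 + 1 + 1 + 1 by ring,
      show 2 * (m + 1) + 1 + 2 = 2 * (m + 1) + 3 by ring] at *
    have e : 2 * m + 1 + 1 + 1 + 1 = 2 * (m + 1) + 1 + 1 := by ring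
    rw [e]
    linear_combination (pf (2 * (m + 1) + 1 + 1)) * h

lemma abs_sum_le (n : ℕ) :
    |∑ k ∈ Finset.Icc 1 n, pf (k + 1) * pf (k + 2)| ≤ 2 := by
  have hb : ∀ m : ℕ, 1 ≤ m → |pf m| = 1 := by
    intro m hm
    rcases pf_pm hm with h | h <;> rw [h] <;> norm_num
  rcases Nat.even_or_odd' n with ⟨c, hc | hc⟩
  · have h := sum_odd c
    rw [Finset.sum_Icc_succ_top (by omega)] at h
    rw [hc, eq_sub_of_add_eq h]
    calc |pf 2 * pf 3 - pf (2 * c + 1 + 1) * pf (2 * c + 1 + 2)|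
        ≤ |pf 2 * pf 3| + |pf (2 * c + 1 + 1) * pf (2 * c + 1 + 2)| := abs_sub _ _
      _ = 2 := by
          rw [abs_mul, abs_mul, hb _ (by omega), hb _ (by omega), hb _ (by omega),
            hb _ (by omega)]; norm_num
  · rw [hc, sum_odd c, abs_mul, hb _ (by omega), hb _ (by omega)]; norm_num

theorem weight_one :
    ∃ f : ℕ → ℂ, (∀ n, 1 ≤ n → f n = 1 ∨ f n = -1) ∧
      (∀ m n, 1 ≤ m → 1 ≤ n → f (m * n) = f m * f n) ∧
      D (ℓ := 2) (fun _ => f) ![1, 2] (fun _ => 1) ≤ 2 := by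
  refine ⟨fun n => (pf n : ℂ), ?_, ?_, ?_⟩
  · intro n hn
    rcases pf_pm hn with h | h
    · left; simp [h]
    · right; simp [h]
  · intro m n _ _
    simp only [pf_mul]
    push_cast
    ring
  · unfold D
    refine iSup_le fun d => iSup_le fun hd => iSup_le fun n => iSup_le fun hn => ?_
    have hd2 : pf d * pf d = 1 := by
      rcases pf_pm hd with h | h <;> rw [h] <;> norm_num
    have key : ∑ k ∈ Finset.Icc 1 n, (1 : ℂ) * ∏ j : Fin 2,
        ((pf (d * (k + (![1, 2] : Fin 2 → ℕ) j)) : ℤ) : ℂ)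
        = ((∑ k ∈ Finset.Icc 1 n, pf (k + 1) * pf (k + 2) : ℤ) : ℂ) := by
      push_cast
      refine Finset.sum_congr rfl fun k _ => ?_
      rw [one_mul, Fin.prod_univ_two]
      simp only [Matrix.cons_val_zero, Matrix.cons_val_one]
      rw [pf_mul, pf_mul]
      have h2 : ((pf d : ℤ) : ℂ) * ((pf d : ℤ) : ℂ) = 1 := by exact_mod_cast hd2
      push_cast
      linear_combination ((pf (k + 1) : ℂ) * (pf (k + 2) : ℂ)) * h2
    rw [key]
    rw [Complex.norm_intCast]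
    have h3 := abs_sum_le n
    have h4 : |((∑ k ∈ Finset.Icc 1 n, pf (k + 1) * pf (k + 2) : ℤ) : ℝ)| ≤ 2 := by
      exact_mod_cast h3
    calc ENNReal.ofReal |((∑ k ∈ Finset.Icc 1 n, pf (k + 1) * pf (k + 2) : ℤ) : ℝ)|
        ≤ ENNReal.ofReal 2 := ENNReal.ofReal_le_ofReal h4
      _ = 2 := by norm_num

/-! ### Weight (ii): `w(k) = e(k² α)`, `α` irrational -/

open Pool.Agent.Lib.MP_10145b_nt in
lemma norm_prod_sub_le {ι : Type*} (s : Finset ι) (u v : ι → ℂ) (hu : ∀ j ∈ s, ‖u j‖ = 1)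
    (hv : ∀ j ∈ s, ‖v j‖ = 1) :
    ‖∏ j ∈ s, u j - ∏ j ∈ s, v j‖ ≤ ∑ j ∈ s, ‖u j - v j‖ := by
  classical
  induction s using Finset.induction_on with
  | empty => simp
  | insert i s hi ih =>
    rw [Finset.prod_insert hi, Finset.prod_insert hi, Finset.sum_insert hi]
    have h1 : u i * ∏ j ∈ s, u j - v i * ∏ j ∈ s, v j
        = (u i - v i) * ∏ j ∈ s, u j + v i * (∏ j ∈ s, u j - ∏ j ∈ s, v j) := by ring
    rw [h1]
    refine (norm_add_le _ _).trans ?_
    rw [norm_mul, norm_mul, norm_prod, hv i (Finset.mem_insert_self _ _), one_mul,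
      Finset.prod_congr rfl fun j hj => hu j (Finset.mem_insert_of_mem hj), Finset.prod_const_one,
      mul_one]
    exact add_le_add le_rfl (ih (fun j hj => hu j (Finset.mem_insert_of_mem hj))
      fun j hj => hv j (Finset.mem_insert_of_mem hj))

open Pool.Agent.Lib.MP_10145b_nt in
theorem weight_two {α : ℝ} (hα : Irrational α) {ℓ : ℕ} (a : Fin ℓ → ℕ → ℂ) (h : Fin ℓ → ℕ)
    (ha : ∀ j n, 1 ≤ n → ‖a j n‖ = 1) :
    D a h (fun k => Complex.exp (2 * Real.pi * Complex.I * ((k : ℂ) ^ 2 * α))) = ⊤ := by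
  classical
  by_contra hD
  set w : ℕ → ℂ := fun k => Complex.exp (2 * Real.pi * Complex.I * ((k : ℂ) ^ 2 * α)) with hw
  have hwe : ∀ k : ℕ, w k = e ((k : ℝ) ^ 2 * α) := by
    intro k
    rw [hw]
    unfold e
    congr 1
    push_cast
    ring
  -- the uniform bound
  set C : ℝ := (D a h w).toReal with hC
  have hC0 : 0 ≤ C := ENNReal.toReal_nonneg
  have hb : ∀ d n : ℕ, 1 ≤ d →
      ‖∑ k ∈ Finset.Icc 1 n, w k * ∏ j, a j (d * (k + h j))‖ ≤ C := by
    intro d n hd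
    rcases Nat.eq_zero_or_pos n with rfl | hn
    · simpa using hC0
    · rw [hC, ← ENNReal.ofReal_le_iff_le_toReal hD]
      unfold D
      refine le_iSup_of_le d (le_iSup_of_le hd (le_iSup_of_le n (le_iSup_of_le hn le_rfl)))
  -- window sums
  have hwin : ∀ d k0 H : ℕ, 1 ≤ d →
      ‖∑ i ∈ Finset.Icc 1 H, w (k0 + i) * ∏ j, a j (d * (k0 + i + h j))‖ ≤ 2 * C := by
    intro d k0 H hd
    have h1 : ∑ k ∈ Finset.Icc 1 (k0 + H), w k * ∏ j, a j (d * (k + h j))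
        = ∑ k ∈ Finset.Icc 1 k0, w k * ∏ j, a j (d * (k + h j))
          + ∑ i ∈ Finset.Icc 1 H, w (k0 + i) * ∏ j, a j (d * (k0 + i + h j)) := by
      induction H with
      | zero => simp
      | succ H ih =>
        rw [← Nat.add_assoc, Finset.sum_Icc_succ_top (by omega), ih,
          Finset.sum_Icc_succ_top (by omega)]
        ring_nf
    have h2 : ∑ i ∈ Finset.Icc 1 H, w (k0 + i) * ∏ j, a j (d * (k0 + i + h j))
        = ∑ k ∈ Finset.Icc 1 (k0 + H), w k * ∏ j, a j (d * (k + h j))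
          - ∑ k ∈ Finset.Icc 1 k0, w k * ∏ j, a j (d * (k + h j)) := by
      rw [h1]; ring
    rw [h2]
    refine (norm_sub_le _ _).trans ?_
    have := hb d (k0 + H) hd
    have := hb d k0 hd
    linarith
  -- parameters
  set K : ℝ := 2 * C + 1 with hK
  obtain ⟨H, hH⟩ := exists_nat_ge (2 * K ^ 2)
  have hH1 : 1 ≤ H := by
    have h1 : (1 : ℝ) ≤ 2 * K ^ 2 := by nlinarith
    exact_mod_cast h1.trans hH
  set ε : ℝ := 1 / (H * ℓ + 1) with hε
  have hε0 : 0 < ε := by positivity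
  -- a finite net in the circle
  obtain ⟨t, hts, htf, htc⟩ := finite_cover_balls_of_compact (isCompact_sphere (0 : ℂ) 1) hε0
  have : Finite t := htf
  have : Fintype t := Fintype.ofFinite _
  have : Nonempty t := by
    have h1 : (1 : ℂ) ∈ Metric.sphere (0 : ℂ) 1 := by simp
    have h2 := htc h1
    rw [Set.mem_iUnion₂] at h2
    obtain ⟨y, hy, _⟩ := h2
    exact ⟨⟨y, hy⟩⟩
  have hround : ∀ (n : ℕ) (j : Fin ℓ), ∃ y : t, 1 ≤ n → ‖a j n - (y : ℂ)‖ ≤ ε := by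
    intro n j
    by_cases hn : 1 ≤ n
    · have h1 : a j n ∈ Metric.sphere (0 : ℂ) 1 := by simp [ha j n hn]
      have h2 := htc h1
      rw [Set.mem_iUnion₂] at h2
      obtain ⟨y, hy, hy2⟩ := h2
      refine ⟨⟨y, hy⟩, fun _ => ?_⟩
      rw [Metric.mem_ball, dist_eq_norm] at hy2
      exact hy2.le
    · exact ⟨Classical.arbitrary t, fun h => absurd h hn⟩
  choose X hX using hround
  have htn : ∀ y : t, ‖(y : ℂ)‖ = 1 := by
    intro y
    have := hts y.2
    simpa using this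
  let c : (Fin ℓ → (Fin ℓ → t)) → ℕ → ℂ := fun f i => e (α * (i : ℝ) ^ 2) * ∏ j, ((f j j : t) : ℂ)
  have hc : ∀ f i, ‖c f i‖ = 1 := by
    intro f i
    simp only [c]
    rw [norm_mul, norm_e, norm_prod, one_mul]
    simp [htn]
  refine core (β := 2 * α) (K := K) (H := H) (X := X) (h := h) (c := c)
    (by simpa using hα.natCast_mul (m := 2) (by norm_num)) hc ?_ hH1 hH
  intro p k0 hp
  have h1 : ∑ i ∈ Finset.Icc 1 H, e (2 * α * k0 * i) * c (fun j => X (p * k0 + p * (i + h j))) i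
      = e (-(α * (k0 : ℝ) ^ 2)) * ∑ i ∈ Finset.Icc 1 H, w (k0 + i) *
          ∏ j, ((X (p * (k0 + i + h j)) j : t) : ℂ) := by
    rw [Finset.mul_sum]
    refine Finset.sum_congr rfl fun i _ => ?_
    simp only [c]
    rw [hwe, ← mul_assoc, ← mul_assoc, ← e_add, ← e_add]
    congr 1
    · congr 1
      push_cast
      ring
    · refine Finset.prod_congr rfl fun j _ => ?_
      rw [show p * k0 + p * (i + h j) = p * (k0 + i + h j) by ring]
  rw [h1, norm_mul, norm_e, one_mul]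
  have h2 : ‖∑ i ∈ Finset.Icc 1 H, w (k0 + i) * ∏ j, ((X (p * (k0 + i + h j)) j : t) : ℂ)
      - ∑ i ∈ Finset.Icc 1 H, w (k0 + i) * ∏ j, a j (p * (k0 + i + h j))‖ ≤ 1 := by
    rw [← Finset.sum_sub_distrib]
    refine (norm_sum_le _ _).trans ?_
    have h3 : ∀ i ∈ Finset.Icc 1 H, ‖w (k0 + i) * ∏ j, ((X (p * (k0 + i + h j)) j : t) : ℂ)
        - w (k0 + i) * ∏ j, a j (p * (k0 + i + h j))‖ ≤ ℓ * ε := by
      intro i hi
      rw [Finset.mem_Icc] at hi
      have hpos : ∀ j, 1 ≤ p * (k0 + i + h j) := fun j =>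
        Nat.mul_pos hp (by omega)
      rw [← mul_sub, norm_mul, hwe, norm_e, one_mul]
      refine (norm_prod_sub_le _ _ _ (fun j _ => htn _) (fun j _ => ha j _ (hpos j))).trans ?_
      have h4 : ∀ j ∈ (Finset.univ : Finset (Fin ℓ)),
          ‖((X (p * (k0 + i + h j)) j : t) : ℂ) - a j (p * (k0 + i + h j))‖ ≤ ε := by
        intro j _
        rw [norm_sub_rev]
        exact hX _ j (hpos j)
      refine (Finset.sum_le_sum h4).trans ?_
      simp
    refine (Finset.sum_le_sum h3).trans ?_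
    rw [Finset.sum_const, Nat.card_Icc, nsmul_eq_mul, Nat.add_sub_cancel, hε]
    rw [← mul_assoc, mul_one_div, div_le_one (by positivity)]
    linarith
  have h3 := hwin p k0 H hp
  have h4 := norm_sub_norm_le
    (∑ i ∈ Finset.Icc 1 H, w (k0 + i) * ∏ j, ((X (p * (k0 + i + h j)) j : t) : ℂ))
    (∑ i ∈ Finset.Icc 1 H, w (k0 + i) * ∏ j, a j (p * (k0 + i + h j)))
  rw [hK]
  linarith

/-- Complete answer to Q1 for both weights.  For the weight `w(k) = e(k² α)` with `α` irrational,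
`D(a, h, w) = +∞` for every tuple of unimodular sequences and every shift vector.  For the weight
`w = 1` this fails: there is a completely multiplicative `f` with values `±1` such that
`D((f, f), (1, 2), 1) ≤ 2`. -/
theorem result :
    (∀ α : ℝ, Irrational α → ∀ (ℓ : ℕ) (a : Fin ℓ → ℕ → ℂ) (h : Fin ℓ → ℕ),
      (∀ j n, 1 ≤ n → ‖a j n‖ = 1) →
        D a h (fun k => Complex.exp (2 * Real.pi * Complex.I * ((k : ℂ) ^ 2 * α))) = ⊤) ∧
    (∃ f : ℕ → ℂ, (∀ n, 1 ≤ n → f n = 1 ∨ f n = -1) ∧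
      (∀ m n, 1 ≤ m → 1 ≤ n → f (m * n) = f m * f n) ∧
      D (ℓ := 2) (fun _ => f) ![1, 2] (fun _ => 1) ≤ 2) :=
  ⟨fun _ hα _ a h ha => weight_two hα a h ha, weight_one⟩

end Pool.Agent.Results.MP_10145b_nt.FullAnswer
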