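import Mathlib

namespace Pool.Agent.Results.MP_10145b_nt.NotConstantModFour

open Finset
open scoped ENNReal

/-- The discrepancy `D(a, h, w)` of the problem, with values in `[0, ∞]`: the supremum over
`d ≥ 1` and `n ≥ 1` of `|∑_{k=1}^{n} w(k) a_1(d(k+h_1)) ⋯ a_ℓ(d(k+h_ℓ))|`. -/
noncomputable def discrepancy {l : ℕ} (a : Fin l → ℕ → ℂ) (h : Fin l → ℕ) (w : ℕ → ℂ) : ℝ≥0∞ :=
  ⨆ (d : ℕ) (_ : 1 ≤ d) (n : ℕ) (_ : 1 ≤ n),
    ENNReal.ofReal ‖∑ k ∈ Finset.Icc 1 n, w k * ∏ j, a j (d * (k + h j))‖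

/-- The character `χ` modulo `8` with `χ(1) = χ(3) = 1`, `χ(5) = χ(7) = -1`, evaluated at the
odd part of `n`. -/
noncomputable def F (n : ℕ) : ℤ := ZMod.χ₈' ((n / 2 ^ n.factorization 2 : ℕ) : ZMod 8)

lemma F_mul (m n : ℕ) : F (m * n) = F m * F n := by
  unfold F
  rw [Nat.ordCompl_mul]
  push_cast
  rw [map_mul]

lemma F_zero : F 0 = 0 := by
  unfold F
  simp

lemma F_odd {n : ℕ} (hn : Odd n) : F n = ZMod.χ₈' (n : ZMod 8) := by
  unfold F
  have h2 : ¬ 2 ∣ n := by
    intro h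
    exact (Nat.not_even_iff_odd.mpr hn) (even_iff_two_dvd.mpr h)
  rw [Nat.factorization_eq_zero_of_not_dvd h2]
  simp

lemma F_two : F 2 = 1 := by
  unfold F
  have : (2 : ℕ).factorization 2 = 1 := by
    rw [Nat.Prime.factorization_self Nat.prime_two]
  rw [this]
  decide

lemma F_two_mul (m : ℕ) : F (2 * m) = F m := by
  rw [F_mul, F_two, one_mul]

lemma F_values {n : ℕ} (hn : 1 ≤ n) : F n = 1 ∨ F n = -1 := by
  induction n using Nat.strong_induction_on with
  | _ n ih =>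
    rcases Nat.even_or_odd n with he | ho
    · obtain ⟨m, rfl⟩ := even_iff_two_dvd.mp he
      rw [F_two_mul]
      exact ih m (by omega) (by omega)
    · rw [F_odd ho]
      obtain ⟨m, rfl⟩ := ho
      push_cast
      have key : ∀ x : ZMod 8, ZMod.χ₈' (2 * x + 1) = 1 ∨ ZMod.χ₈' (2 * x + 1) = -1 := by decide
      exact key _

lemma F_abs_le (n : ℕ) : |F n| ≤ 1 := by
  rcases Nat.eq_zero_or_pos n with rfl | h
  · rw [F_zero]; norm_num
  · rcases F_values h with h | h <;> rw [h] <;> norm_num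

lemma F_mul_abs_le (m n : ℕ) : |F m * F n| ≤ 1 := by
  rw [abs_mul]
  calc |F m| * |F n| ≤ 1 * 1 := by
        apply mul_le_mul (F_abs_le m) (F_abs_le n) (abs_nonneg _) (by norm_num)
    _ = 1 := by norm_num

/-- partial sums of a `4`-antiperiodic function are bounded -/
lemma antiperiodic_bound (g : ℕ → ℤ) (hg : ∀ m, g (m + 4) = - g m) (B : ℤ)
    (hB : ∀ m, |g m| ≤ B) (M : ℕ) : |∑ m ∈ range M, g m| ≤ 8 * B := by
  have hB0 : 0 ≤ B := (abs_nonneg _).trans (hB 0)
  have hper : ∀ m, g (m + 8) = g m := by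
    intro m
    have h1 := hg m
    have h2 := hg (m + 4)
    rw [show m + 8 = m + 4 + 4 by ring, h2, h1, neg_neg]
  have h8 : ∑ m ∈ range 8, g m = 0 := by
    simp only [Finset.sum_range_succ, Finset.sum_range_zero]
    have h0 := hg 0
    have h1 := hg 1
    have h2 := hg 2
    have h3 := hg 3
    norm_num at h0 h1 h2 h3
    rw [h0, h1, h2, h3]
    ring
  induction M using Nat.strong_induction_on with
  | _ M ih =>
    rcases lt_or_ge M 8 with hM | hM
    · calc |∑ m ∈ range M, g m| ≤ ∑ m ∈ range M, |g m| := Finset.abs_sum_le_sum_abs _ _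
        _ ≤ ∑ m ∈ range M, B := Finset.sum_le_sum (fun m _ => hB m)
        _ = M * B := by simp
        _ ≤ 8 * B := by
          apply mul_le_mul_of_nonneg_right _ hB0
          exact_mod_cast hM.le
    · obtain ⟨N, rfl⟩ := Nat.exists_eq_add_of_le hM
      rw [Finset.sum_range_add, h8, zero_add]
      have : ∀ x ∈ range N, g (8 + x) = g x := by
        intro x _
        rw [add_comm 8 x, hper]
      rw [Finset.sum_congr rfl this]
      exact ih N (by omega)

/-- lag sums -/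
noncomputable def S (s N : ℕ) : ℤ := ∑ i ∈ range N, F (i + 1) * F (i + 1 + s)

lemma S_two_mul (s M : ℕ) :
    S s (2 * M) = (∑ m ∈ range M, F (2 * m + 1) * F (2 * m + 1 + s)) +
      ∑ m ∈ range M, F (2 * (m + 1)) * F (2 * (m + 1) + s) := by
  induction M with
  | zero => simp [S]
  | succ M ih =>
    have : S s (2 * (M + 1)) = S s (2 * M) + F (2 * M + 1) * F (2 * M + 1 + s)
        + F (2 * (M + 1)) * F (2 * (M + 1) + s) := by
      unfold S
      rw [show 2 * (M + 1) = 2 * M + 1 + 1 by ring, Finset.sum_range_succ, Finset.sum_range_succ]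
    rw [this, ih, Finset.sum_range_succ, Finset.sum_range_succ]
    ring

lemma S_bound_of_even (s : ℕ) (B : ℤ) (h : ∀ M, |S s (2 * M)| ≤ B) (N : ℕ) :
    |S s N| ≤ B + 1 := by
  rcases Nat.even_or_odd' N with ⟨M, rfl | rfl⟩
  · linarith [h M]
  · have : S s (2 * M + 1) = S s (2 * M) + F (2 * M + 1) * F (2 * M + 1 + s) := by
      unfold S
      rw [Finset.sum_range_succ]
    rw [this]
    calc |S s (2 * M) + F (2 * M + 1) * F (2 * M + 1 + s)|
        ≤ |S s (2 * M)| + |F (2 * M + 1) * F (2 * M + 1 + s)| := abs_add_le _ _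
      _ ≤ B + 1 := add_le_add (h M) (F_mul_abs_le _ _)

lemma chi_abs_le (x : ZMod 8) : |ZMod.χ₈' x| ≤ 1 := by
  revert x; decide

/-- odd lags -/
lemma S_odd_bound (r N : ℕ) : |S (2 * r + 1) N| ≤ 16 + 2 * r + 1 := by
  apply S_bound_of_even
  intro M
  set s : ℕ := 2 * r + 1 with hs
  -- the two sums
  have e1 : ∀ m ∈ range M, F (2 * (m + 1)) * F (2 * (m + 1) + s)
      = F (m + 1) * ZMod.χ₈' (2 * ((m + 1 : ℕ) : ZMod 8) + (s : ZMod 8)) := by
    intro m _
    rw [F_two_mul, F_odd (n := 2 * (m + 1) + s) (by rw [hs]; exact ⟨m + 1 + r, by ring⟩)]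
    push_cast
    rfl
  have e2 : ∀ m ∈ range M, F (2 * m + 1) * F (2 * m + 1 + s)
      = F (m + r + 1) * ZMod.χ₈' (2 * ((m + r + 1 : ℕ) : ZMod 8) - (s : ZMod 8)) := by
    intro m _
    rw [show 2 * m + 1 + s = 2 * (m + r + 1) by rw [hs]; ring, F_two_mul,
      F_odd (n := 2 * m + 1) ⟨m, rfl⟩, mul_comm]
    congr 2
    rw [hs]
    push_cast
    ring
  rw [S_two_mul, Finset.sum_congr rfl e1, Finset.sum_congr rfl e2]
  -- shift the first sum
  set u : ℕ → ℤ := fun m => F (m + 1) * ZMod.χ₈' (2 * ((m + 1 : ℕ) : ZMod 8) - (s : ZMod 8)) with hu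
  set v : ℕ → ℤ := fun m => F (m + 1) * ZMod.χ₈' (2 * ((m + 1 : ℕ) : ZMod 8) + (s : ZMod 8)) with hv
  have hushift : ∑ m ∈ range M, F (m + r + 1) *
      ZMod.χ₈' (2 * ((m + r + 1 : ℕ) : ZMod 8) - (s : ZMod 8)) = ∑ m ∈ range M, u (m + r) := rfl
  rw [hushift]
  have hsum : ∑ m ∈ range M, u (m + r) + ∑ m ∈ range r, u m
      = ∑ m ∈ range M, u m + ∑ m ∈ range r, u (M + m) := by
    have a1 : ∑ m ∈ range (r + M), u m = ∑ m ∈ range r, u m + ∑ m ∈ range M, u (r + m) :=
      Finset.sum_range_add _ _ _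
    have a2 : ∑ m ∈ range (M + r), u m = ∑ m ∈ range M, u m + ∑ m ∈ range r, u (M + m) :=
      Finset.sum_range_add _ _ _
    rw [add_comm r M] at a1
    have a3 : ∑ m ∈ range M, u (m + r) = ∑ m ∈ range M, u (r + m) := by
      apply Finset.sum_congr rfl
      intro m _
      rw [add_comm]
    rw [a3]
    linarith
  have hub : ∀ m, |u m| ≤ 1 := by
    intro m
    rw [hu]
    simp only
    rw [abs_mul]
    calc |F (m + 1)| * |ZMod.χ₈' (2 * ((m + 1 : ℕ) : ZMod 8) - (s : ZMod 8))| ≤ 1 * 1 := by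
          apply mul_le_mul (F_abs_le _) (chi_abs_le _) (abs_nonneg _) (by norm_num)
      _ = 1 := by norm_num
  have hr1 : |∑ m ∈ range r, u m| ≤ r := by
    calc |∑ m ∈ range r, u m| ≤ ∑ m ∈ range r, |u m| := Finset.abs_sum_le_sum_abs _ _
      _ ≤ ∑ m ∈ range r, 1 := Finset.sum_le_sum (fun m _ => hub m)
      _ = r := by simp
  have hr2 : |∑ m ∈ range r, u (M + m)| ≤ r := by
    calc |∑ m ∈ range r, u (M + m)| ≤ ∑ m ∈ range r, |u (M + m)| :=
          Finset.abs_sum_le_sum_abs _ _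
      _ ≤ ∑ m ∈ range r, 1 := Finset.sum_le_sum (fun m _ => hub _)
      _ = r := by simp
  -- the main part
  set g : ℕ → ℤ := fun m => ZMod.χ₈' ((m + 1 : ℕ) : ZMod 8) *
    (ZMod.χ₈' (2 * ((m + 1 : ℕ) : ZMod 8) - (s : ZMod 8)) +
      ZMod.χ₈' (2 * ((m + 1 : ℕ) : ZMod 8) + (s : ZMod 8))) with hg
  have huv : ∀ m, u m + v m = g m := by
    intro m
    rw [hu, hv, hg]
    simp only
    rw [← mul_add]
    rcases Nat.even_or_odd (m + 1) with he | ho
    · obtain ⟨q, hq⟩ := even_iff_two_dvd.mp he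
      rw [hq]
      have k1 : ∀ x y : ZMod 8, ZMod.χ₈' (2 * (2 * x) - y) + ZMod.χ₈' (2 * (2 * x) + y) = 0 := by
        decide
      push_cast
      rw [k1]
      simp
    · rw [F_odd ho]
  have hganti : ∀ m, g (m + 4) = - g m := by
    intro m
    rw [hg]
    simp only
    have k2 : ∀ x y : ZMod 8, ZMod.χ₈' (x + 4) *
        (ZMod.χ₈' (2 * (x + 4) - y) + ZMod.χ₈' (2 * (x + 4) + y)) =
        - (ZMod.χ₈' x * (ZMod.χ₈' (2 * x - y) + ZMod.χ₈' (2 * x + y))) := by
      decide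
    have : ((m + 4 + 1 : ℕ) : ZMod 8) = ((m + 1 : ℕ) : ZMod 8) + 4 := by
      push_cast
      ring
    rw [this]
    exact k2 _ _
  have hgb : ∀ m, |g m| ≤ 2 := by
    intro m
    rw [hg]
    simp only
    have k3 : ∀ x y : ZMod 8, |ZMod.χ₈' x * (ZMod.χ₈' (2 * x - y) + ZMod.χ₈' (2 * x + y))| ≤ 2 := by
      decide
    exact k3 _ _
  have hmain : |∑ m ∈ range M, g m| ≤ 8 * 2 := antiperiodic_bound g hganti 2 hgb M
  have htot : ∑ m ∈ range M, u (m + r) + ∑ m ∈ range M, v m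
      = ∑ m ∈ range M, g m + ∑ m ∈ range r, u (M + m) - ∑ m ∈ range r, u m := by
    have : ∑ m ∈ range M, g m = ∑ m ∈ range M, u m + ∑ m ∈ range M, v m := by
      rw [← Finset.sum_add_distrib]
      exact Finset.sum_congr rfl (fun m _ => (huv m).symm)
    rw [this]
    linarith
  change |∑ m ∈ range M, u (m + r) + ∑ m ∈ range M, v m| ≤ 16 + 2 * r
  rw [htot]
  rw [abs_le] at hmain hr1 hr2 ⊢
  constructor <;> linarith [hmain.1, hmain.2, hr1.1, hr1.2, hr2.1, hr2.2]

/-- lags that are twice an odd number -/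
lemma S_two_odd_bound (r N : ℕ) : |S (2 * (2 * r + 1)) N| ≤ 8 + (16 + 2 * r + 1) + 1 := by
  apply S_bound_of_even
  intro M
  rw [S_two_mul]
  have e1 : ∑ m ∈ range M, F (2 * (m + 1)) * F (2 * (m + 1) + 2 * (2 * r + 1))
      = S (2 * r + 1) M := by
    unfold S
    apply Finset.sum_congr rfl
    intro m _
    rw [← Nat.mul_add, F_two_mul, F_two_mul]
  rw [e1]
  have e2 : ∀ m ∈ range M, F (2 * m + 1) * F (2 * m + 1 + 2 * (2 * r + 1)) =
      ZMod.χ₈' (2 * (m : ZMod 8) + 1) * ZMod.χ₈' (2 * (m : ZMod 8) + 1 + 2 * (2 * (r : ZMod 8) + 1)) := by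
    intro m _
    rw [F_odd (n := 2 * m + 1) ⟨m, rfl⟩,
      F_odd (n := 2 * m + 1 + 2 * (2 * r + 1)) ⟨m + 2 * r + 1, by ring⟩]
    push_cast
    rfl
  rw [Finset.sum_congr rfl e2]
  have hb : |∑ m ∈ range M, ZMod.χ₈' (2 * (m : ZMod 8) + 1) *
      ZMod.χ₈' (2 * (m : ZMod 8) + 1 + 2 * (2 * (r : ZMod 8) + 1))| ≤ 1 := by
    have halt : ∀ M : ℕ, (∑ m ∈ range M, ZMod.χ₈' (2 * (m : ZMod 8) + 1) *
      ZMod.χ₈' (2 * (m : ZMod 8) + 1 + 2 * (2 * (r : ZMod 8) + 1))) =
        if Even M then 0 else ZMod.χ₈' (1 + 2 * (2 * (r : ZMod 8) + 1)) := by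
      intro M
      induction M with
      | zero => simp
      | succ M ih =>
        rw [Finset.sum_range_succ, ih]
        rcases Nat.even_or_odd' M with ⟨q, rfl | rfl⟩
        · have h1 : Even (2 * q) := ⟨q, by ring⟩
          have h2 : ¬ Even (2 * q + 1) := by
            rw [Nat.not_even_iff_odd]; exact ⟨q, rfl⟩
          rw [if_pos h1, if_neg h2]
          push_cast
          have k : ∀ x y : ZMod 8, (0 : ℤ) + ZMod.χ₈' (2 * (2 * x) + 1) *
              ZMod.χ₈' (2 * (2 * x) + 1 + 2 * (2 * y + 1)) = ZMod.χ₈' (1 + 2 * (2 * y + 1)) := by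
            decide
          exact k _ _
        · have h1 : ¬ Even (2 * q + 1) := by
            rw [Nat.not_even_iff_odd]; exact ⟨q, rfl⟩
          have h2 : Even (2 * q + 1 + 1) := ⟨q + 1, by ring⟩
          rw [if_neg h1, if_pos h2]
          push_cast
          have k : ∀ x y : ZMod 8, ZMod.χ₈' (1 + 2 * (2 * y + 1)) + ZMod.χ₈' (2 * (2 * x + 1) + 1) *
              ZMod.χ₈' (2 * (2 * x + 1) + 1 + 2 * (2 * y + 1)) = 0 := by
            decide
          exact k _ _
    rw [halt M]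
    split_ifs
    · norm_num
    · exact chi_abs_le _
  have hS := S_odd_bound r M
  rw [abs_le] at hb hS ⊢
  constructor <;> linarith [hb.1, hb.2, hS.1, hS.2]

/-- every lag not divisible by `4` -/
lemma S_bound (s : ℕ) (hs : ¬ 4 ∣ s) : ∃ B : ℤ, ∀ N, |S s N| ≤ B := by
  rcases Nat.even_or_odd' s with ⟨q, rfl | rfl⟩
  · rcases Nat.even_or_odd' q with ⟨t, rfl | rfl⟩
    · exact absurd ⟨t, by ring⟩ hs
    · exact ⟨_, fun N => S_two_odd_bound t N⟩
  · exact ⟨_, fun N => S_odd_bound q N⟩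

lemma window (h s n : ℕ) :
    ∑ k ∈ Finset.Icc 1 n, F (k + h) * F (k + (h + s)) = S s (h + n) - S s h := by
  induction n with
  | zero => simp
  | succ n ih =>
    rw [Finset.sum_Icc_succ_top (by omega), ih]
    have : S s (h + (n + 1)) = S s (h + n) + F (h + n + 1) * F (h + n + 1 + s) := by
      unfold S
      rw [← Nat.add_assoc, Finset.sum_range_succ]
    rw [this, show n + 1 + h = h + n + 1 by ring, show n + 1 + (h + s) = h + n + 1 + s by ring]
    ring

lemma window_bound (h₁ h₂ : ℕ) (hh : ¬ h₁ ≡ h₂ [MOD 4]) :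
    ∃ B : ℤ, ∀ n, |∑ k ∈ Finset.Icc 1 n, F (k + h₁) * F (k + h₂)| ≤ B := by
  wlog hle : h₁ ≤ h₂ generalizing h₁ h₂
  · obtain ⟨B, hB⟩ := this h₂ h₁ (fun h => hh h.symm) (by omega)
    refine ⟨B, fun n => ?_⟩
    have := hB n
    simp_rw [mul_comm (F (_ + h₁))]
    exact this
  obtain ⟨s, rfl⟩ := Nat.exists_eq_add_of_le hle
  have hs : ¬ 4 ∣ s := by
    intro h4
    apply hh
    have : h₁ + 0 ≡ h₁ + s [MOD 4] := Nat.ModEq.add_left h₁ ((Nat.modEq_zero_iff_dvd.mpr h4).symm)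
    simpa using this
  obtain ⟨B, hB⟩ := S_bound s hs
  refine ⟨B + B, fun n => ?_⟩
  rw [window]
  have h1 := hB (h₁ + n)
  have h2 := hB h₁
  rw [abs_le] at h1 h2 ⊢
  constructor <;> linarith [h1.1, h1.2, h2.1, h2.2]

/-- There is one completely multiplicative function `f` with values `±1` such that, whenever two
entries `h i`, `h j` of a shift vector are incongruent modulo `4`, the tuple which is `f` in the
positions `i` and `j` and constant `1` elsewhere has finite discrepancy for the weight `w = 1`. -/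
theorem result :
    ∃ f : ℕ → ℂ, (∀ m n, f (m * n) = f m * f n) ∧ (∀ n, 1 ≤ n → f n = 1 ∨ f n = -1) ∧
      ∀ (l : ℕ) (h : Fin l → ℕ) (i j : Fin l), ¬ h i ≡ h j [MOD 4] →
        ∃ a : Fin l → ℕ → ℂ, a i = f ∧ a j = f ∧ (∀ t, t ≠ i → t ≠ j → ∀ n, a t n = 1) ∧
          discrepancy a h (fun _ => 1) < ⊤ := by
  refine ⟨fun n => ((F n : ℤ) : ℂ), ?_, ?_, ?_⟩
  · intro m n
    simp only
    rw [F_mul]
    push_cast
    ring
  · intro n hn
    rcases F_values hn with h | h
    · left; simp [h]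
    · right; simp [h]
  · intro l h i j hij
    have hne : i ≠ j := by
      rintro rfl
      exact hij rfl
    refine ⟨fun t n => if t = i ∨ t = j then ((F n : ℤ) : ℂ) else 1, ?_, ?_, ?_, ?_⟩
    · funext n; simp
    · funext n; simp
    · intro t ht1 ht2 n
      simp [ht1, ht2]
    · obtain ⟨B, hB⟩ := window_bound (h i) (h j) hij
      have hbound : ∀ d n : ℕ, ‖∑ k ∈ Finset.Icc 1 n, (fun _ => (1 : ℂ)) k *
          ∏ t, (if t = i ∨ t = j then ((F (d * (k + h t)) : ℤ) : ℂ) else 1)‖ ≤ (B : ℝ) := by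
        intro d n
        have hprod : ∀ k ∈ Finset.Icc 1 n, (fun _ => (1 : ℂ)) k *
            ∏ t, (if t = i ∨ t = j then ((F (d * (k + h t)) : ℤ) : ℂ) else 1)
            = ((F d * F d * (F (k + h i) * F (k + h j)) : ℤ) : ℂ) := by
          intro k _
          have hset : (Finset.univ.filter (fun t : Fin l => t = i ∨ t = j)) = {i, j} := by
            ext t; simp
          simp only [one_mul]
          rw [← Finset.prod_filter, hset, Finset.prod_pair hne, F_mul, F_mul]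
          push_cast
          ring
        rw [Finset.sum_congr rfl hprod, ← Int.cast_sum, ← Finset.mul_sum]
        rw [Complex.norm_intCast]
        have h1 : |F d * F d * ∑ k ∈ Finset.Icc 1 n, F (k + h i) * F (k + h j)| ≤ B := by
          rw [abs_mul]
          calc |F d * F d| * |∑ k ∈ Finset.Icc 1 n, F (k + h i) * F (k + h j)|
              ≤ 1 * B := by
                apply mul_le_mul (F_mul_abs_le d d) (hB n) (abs_nonneg _) (by norm_num)
            _ = B := one_mul B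
        have h2 : (((|F d * F d * ∑ k ∈ Finset.Icc 1 n, F (k + h i) * F (k + h j)|) : ℤ) : ℝ)
            ≤ (B : ℝ) := by exact_mod_cast h1
        rw [Int.cast_abs] at h2
        exact h2
      unfold discrepancy
      refine lt_of_le_of_lt (b := ENNReal.ofReal (B : ℝ)) ?_ ENNReal.ofReal_lt_top
      refine iSup_le fun d => iSup_le fun _ => iSup_le fun n => iSup_le fun _ => ?_
      exact ENNReal.ofReal_le_ofReal (hbound d n)

end Pool.Agent.Results.MP_10145b_nt.NotConstantModFour
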